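import Pool.Agent.helper97.KR.Spec

/-!
# Row kr:G5 (MP_974a61_co): the smaller graph at a vertex of degree 4
-/

set_option autoImplicit false

namespace Pool.Agent.helper97.KR

open Finset Classical

noncomputable section

theorem G5_symm {V E : Type} {ends : E → Sym2 V} {F : Set E} {p q : V} (h : Jn ends F p q) : Jn ends F q p := by
  obtain ⟨e, he, h⟩ := h
  exact ⟨e, he, h.trans Sym2.eq_swap⟩

theorem G5_con {V E : Type} (ends ends' : E → Sym2 V) (S : Finset V) (T T' : Set E) (v r : V)
    (hstep : ∀ e ∈ T, ∀ p q, ends e = s(p, q) →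
      Relation.ReflTransGen (Jn ends' T') (if p = v then r else p) (if q = v then r else q))
    (hc : Con ends S T) : Con ends' (S.erase v) T' := by
  intro u hu w hw
  have hu' := Finset.mem_erase.mp hu
  have hw' := Finset.mem_erase.mp hw
  have h : ∀ p q, Relation.ReflTransGen (Jn ends T) p q →
      Relation.ReflTransGen (Jn ends' T') (if p = v then r else p) (if q = v then r else q) := by
    intro p q hpq
    induction hpq with
    | refl => exact Relation.ReflTransGen.refl
    | tail _ h2 ih =>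
      obtain ⟨e, he, h3⟩ := h2
      exact ih.trans (hstep e he _ _ h3)
  have h1 := h u w (hc u hu'.2 w hw'.2)
  rwa [if_neg hu'.1, if_neg hw'.1] at h1

theorem G5_refl {V E : Type} (ends' : E → Sym2 V) (T' : Set E) (v c p q : V) (h : s(v, c) = s(p, q)) :
    Relation.ReflTransGen (Jn ends' T') (if p = v then c else p) (if q = v then c else q) := by
  have h1 : (if c = v then c else c) = c := ite_self _
  rcases Sym2.eq_iff.mp h with ⟨h2, h3⟩ | ⟨h2, h3⟩
  · rw [← h2, ← h3, if_pos rfl, h1]
  · rw [← h2, ← h3, if_pos rfl, h1]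

theorem G5 : G5_stmt := by
  intro V E ends S F v a b x1 x2 u2 u3 T h hc hcon hdis hF hx1 hx2 hu2 hu3
  obtain ⟨c2, hc2⟩ : v ∈ ends u2 := ((h.all u2).mpr (by simp)).2
  obtain ⟨c3, hc3⟩ : v ∈ ends u3 := ((h.all u3).mpr (by simp)).2
  obtain ⟨z, hz0, hz1, hz2⟩ : ∃ z : Fin 3 → E, z 0 = x2 ∧ z 1 = u2 ∧ z 2 = u3 :=
    ⟨![x2, u2, u3], rfl, rfl, rfl⟩
  have hzT : ∀ i, z i ∈ T i := by
    intro i
    fin_cases i
    · show z 0 ∈ T 0
      rw [hz0]; exact hx2
    · show z 1 ∈ T 1
      rw [hz1]; exact hu2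
    · show z 2 ∈ T 2
      rw [hz2]; exact hu3
  have hdj : ∀ i j e, e ∈ T i → e ∈ T j → i = j := fun i j e hi hj =>
    by_contra fun hne => (Finset.disjoint_left.mp (hdis i j hne)) hi hj
  have hnv : ∀ i, ∀ e ∈ T i, e ≠ z i → e ≠ x1 → v ∉ ends e := by
    intro i e he hez hex hv
    have heF : e ∈ F := (hF e).mpr ⟨i, he⟩
    rcases (h.all e).mp ⟨heF, hv⟩ with h1 | h1 | h1 | h1
    · exact hex h1
    · have h2 := hdj i 0 e he (by rw [h1]; exact hx2)
      rw [h2, hz0] at hez
      exact hez h1
    · have h2 := hdj i 1 e he (by rw [h1]; exact hu2)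
      rw [h2, hz1] at hez
      exact hez h1
    · have h2 := hdj i 2 e he (by rw [h1]; exact hu3)
      rw [h2, hz2] at hez
      exact hez h1
  have hupd : ∀ e, e ≠ x1 → Function.update ends x1 s(a, b) e = ends e := fun e he =>
    Function.update_of_ne he _ _
  have hgen : ∀ i, ∀ e ∈ T i, e ≠ z i → e ≠ x1 → ∀ p q r, ends e = s(p, q) →
      Relation.ReflTransGen (Jn (Function.update ends x1 s(a, b)) (((T i).erase (z i) : Finset E) : Set E))
        (if p = v then r else p) (if q = v then r else q) := by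
    intro i e he hez hex p q r hpq
    have hv := hnv i e he hez hex
    rw [hpq, Sym2.mem_iff, not_or] at hv
    rw [if_neg (Ne.symm hv.1), if_neg (Ne.symm hv.2)]
    refine Relation.ReflTransGen.single ⟨e, ?_, ?_⟩
    · exact Finset.mem_coe.mpr (Finset.mem_erase.mpr ⟨hez, he⟩)
    · rw [hupd e hex, hpq]
  have hxv : ∀ i, i ≠ 0 → x1 ∉ T i := fun i hi hx => hi (hdj i 0 x1 hx hx1)
  refine ⟨⟨a, Finset.mem_erase.mpr ⟨h.av, h.aS⟩⟩, ?_, ?_, ⟨fun i => (T i).erase (z i), ?_, ?_, ?_, ?_⟩⟩
  · intro e he w hw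
    rw [Finset.mem_sdiff, Finset.mem_insert, Finset.mem_insert, Finset.mem_singleton, not_or, not_or] at he
    by_cases hex : e = x1
    · rw [hex, Function.update_self, Sym2.mem_iff] at hw
      rcases hw with rfl | rfl
      · exact Finset.mem_erase.mpr ⟨h.av, h.aS⟩
      · exact Finset.mem_erase.mpr ⟨h.bv, h.bS⟩
    · rw [hupd e hex] at hw
      refine Finset.mem_erase.mpr ⟨fun hwv => ?_, h.g.sub e he.1 w hw⟩
      rw [hwv] at hw
      rcases (h.all e).mp ⟨he.1, hw⟩ with h1 | h1 | h1 | h1
      · exact hex h1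
      · exact he.2.1 h1
      · exact he.2.2.1 h1
      · exact he.2.2.2 h1
  · intro e he
    rw [Finset.mem_sdiff] at he
    by_cases hex : e = x1
    · rw [hex, Function.update_self, Sym2.mk_isDiag_iff]
      exact h.ab
    · rw [hupd e hex]
      exact h.g.loop e he.1
  · intro i
    have h1 := hc i
    have h2 := Finset.card_erase_add_one (hzT i)
    have h3 := Finset.card_erase_add_one h.vS
    show ((T i).erase (z i)).card + 1 = (S.erase v).card
    omega
  · intro i
    show Con _ _ (((T i).erase (z i) : Finset E) : Set E)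
    fin_cases i
    · show Con _ _ (((T 0).erase (z 0) : Finset E) : Set E)
      refine G5_con ends _ S (T 0 : Set E) _ v a ?_ (hcon 0)
      intro e he p q hpq
      have he' : e ∈ T 0 := Finset.mem_coe.mp he
      have hJ : Jn (Function.update ends x1 s(a, b)) (((T 0).erase (z 0) : Finset E) : Set E) a b :=
        ⟨x1, Finset.mem_coe.mpr (Finset.mem_erase.mpr ⟨by rw [hz0]; exact h.n12, hx1⟩), Function.update_self _ _ _⟩
      by_cases hex : e = x1
      · rw [hex, h.e1, Sym2.eq_iff] at hpq
        rcases hpq with ⟨h1, h2⟩ | ⟨h1, h2⟩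
        · rw [← h1, ← h2, if_pos rfl, if_neg h.av]
        · rw [← h1, ← h2, if_pos rfl, if_neg h.av]
      · by_cases hez : e = z 0
        · rw [hez, hz0, h.e2, Sym2.eq_iff] at hpq
          rcases hpq with ⟨h1, h2⟩ | ⟨h1, h2⟩
          · rw [← h1, ← h2, if_pos rfl, if_neg h.bv]
            exact Relation.ReflTransGen.single hJ
          · rw [← h1, ← h2, if_pos rfl, if_neg h.bv]
            exact Relation.ReflTransGen.single (G5_symm hJ)
        · exact hgen 0 e he' hez hex p q a hpq
    · show Con _ _ (((T 1).erase (z 1) : Finset E) : Set E)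
      refine G5_con ends _ S (T 1 : Set E) _ v c2 ?_ (hcon 1)
      intro e he p q hpq
      have he' : e ∈ T 1 := Finset.mem_coe.mp he
      have hex : e ≠ x1 := fun hex => hxv 1 (by decide) (hex ▸ he')
      by_cases hez : e = z 1
      · rw [hez, hz1, hc2] at hpq
        exact G5_refl _ _ v c2 p q hpq
      · exact hgen 1 e he' hez hex p q c2 hpq
    · show Con _ _ (((T 2).erase (z 2) : Finset E) : Set E)
      refine G5_con ends _ S (T 2 : Set E) _ v c3 ?_ (hcon 2)
      intro e he p q hpq
      have he' : e ∈ T 2 := Finset.mem_coe.mp he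
      have hex : e ≠ x1 := fun hex => hxv 2 (by decide) (hex ▸ he')
      by_cases hez : e = z 2
      · rw [hez, hz2, hc3] at hpq
        exact G5_refl _ _ v c3 p q hpq
      · exact hgen 2 e he' hez hex p q c3 hpq
  · intro i j hij
    exact Disjoint.mono (Finset.erase_subset _ _) (Finset.erase_subset _ _) (hdis i j hij)
  · intro e
    rw [Finset.mem_sdiff, Finset.mem_insert, Finset.mem_insert, Finset.mem_singleton, not_or, not_or, hF]
    constructor
    · rintro ⟨⟨i, hi⟩, h1, h2, h3⟩
      refine ⟨i, Finset.mem_erase.mpr ⟨?_, hi⟩⟩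
      fin_cases i
      · show e ≠ z 0
        rw [hz0]; exact h1
      · show e ≠ z 1
        rw [hz1]; exact h2
      · show e ≠ z 2
        rw [hz2]; exact h3
    · rintro ⟨i, hi⟩
      obtain ⟨h1, h2⟩ := Finset.mem_erase.mp hi
      refine ⟨⟨i, h2⟩, fun h3 => ?_, fun h3 => ?_, fun h3 => ?_⟩
      · have h4 := hdj i 0 e h2 (by rw [h3]; exact hx2)
        rw [h4, hz0] at h1
        exact h1 h3
      · have h4 := hdj i 1 e h2 (by rw [h3]; exact hu2)
        rw [h4, hz1] at h1
        exact h1 h3
      · have h4 := hdj i 2 e h2 (by rw [h3]; exact hu3)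
        rw [h4, hz2] at h1
        exact h1 h3

end

end Pool.Agent.helper97.KR
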